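import Pool.Agent.H39.TOH.Final

/-!
# Face sizes and vertex degrees of the two-orbit polyhedra in hyperbolic 3-space (MP_397744_co)

Hyperbolic 3-space `H3` is the upper sheet of the hyperboloid in `ℝ⁴`, `ch` is the hyperbolic cosine of the distance
and isometries are the bijections of `H3` which preserve `ch`. `IsPolyhedron`, `IsFaithful`, `IsSymmetry`,
`SameOrbit` (in `Pool.Agent.H57.CP.Defs`) and `IsTwoOrbit` (in `Pool.Agent.H39.TO.Defs`) are the literal definitions
of the problem for abstract polyhedra and their realizations.

There is a two-orbit geometric polyhedron in hyperbolic 3-space whose set of face sizes is `A` and whose set of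
vertex degrees is `B` if and only if
* `A = {p, p'}` with different `p, p' ≥ 3` (possibly infinite) and `B = {2 n}` with `n ≥ 2`, or
* `A = {p}` with `p` infinite or even and at least 4, and `B = {q, q'}` with different finite `q, q' ≥ 2`, or
* `A = {p}`, `B = {q}` with `3 ≤ q < ∞` and either `p` is infinite or even and at least 4, or `p ≥ 5` is odd and
  `q = 4`, or `q = 2 p`, or `q = 6` and `3` does not divide `p`.
-/

namespace Pool.Agent.Results.MP_397744_co.AllTypes

open Pool.Agent.H39.TO

theorem result : ∀ A B : Set ℕ∞, Occurs A B ↔ Allowed A B :=
  Pool.Agent.H39.TOH.Final.main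

end Pool.Agent.Results.MP_397744_co.AllTypes
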