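import Pool.Agent.H57.CP.Final

/-!
# Schläfli types of the geometrically chiral polyhedra in hyperbolic 3-space (MP_397744_co)

Hyperbolic 3-space `H3` is the upper sheet of the hyperboloid in `ℝ⁴`, `ch` is the hyperbolic cosine of the distance
and isometries are the bijections of `H3` which preserve `ch`. `IsPolyhedron`, `IsFaithful`, `IsSymmetry`,
`IsChiral`, `HasType` are the literal definitions of the problem for abstract polyhedra and their realizations.

There is a geometrically chiral polyhedron of type `{p, q}` in hyperbolic 3-space if and only if `q` is finite and at
least 3, and either `p` is infinite or `p` and `q` are even, at least 4 and not both equal to 4. For each of these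
types the edge lengths of the geometrically chiral polyhedra fill at least an interval.
-/

namespace Pool.Agent.Results.MP_397744_co.ChiralTypes

open Pool.Agent.H57.CP

theorem result : ∀ p q : ℕ∞, (ChiralOfType p q ↔ Admissible p q) ∧
    (Admissible p q → ∃ A B : ℝ, 1 < A ∧ A < B ∧ ∀ L ∈ Set.Ioo A B, ExistsChiral p q L) :=
  Pool.Agent.H57.CP.Final.main

end Pool.Agent.Results.MP_397744_co.ChiralTypes
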