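import Pool.Agent.H50.ODG.All

/-!
# Classification of the infinite two-orbit polyhedra with finite faces and odd vertex degrees in hyperbolic 3-space
(MP_397744_co)

Up to isometry, the infinite two-orbit geometric polyhedra in hyperbolic 3-space with finite faces, all of whose
vertices have odd degree, are exactly the polyhedra `ModD u v w α β` with `Prm u v w α β`: the base edge is `{o, x1}`,
its length has the hyperbolic cosine `L = eL u v w α β`, there are three reflections in planes with unit normals `na`
(the plane contains `o`), `nb` (the plane contains `x1`) and `m1` (the plane contains both points), with the Minkowski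
products `mk na m1 = cos (u π)`, `mk nb m1 = cos (v π)`, `mk na nb = cos (w π)`; the base face is generated from the
base edge by the first two reflections, the polyhedron by all three. The two angles `α`, `β` between `0` and `π` are
free, `(u, v, w)` is one of the triples of the lists `Fam0`, `Fam1`, `Fam2` with `u + v + w ≤ 1`; `α ≠ β` in the
second and the third list, and `α + β ≠ π` in the third one. Two such polyhedra are congruent if and only if the
parameters are equal up to the replacement of `(α, β)` by `(π - α, π - β)` and up to the exchange of the two vertices.
-/

namespace Pool.Agent.Results.MP_397744_co.OddDegrees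

open Pool.Agent.H57.CP Pool.Agent.H39.OD Pool.Agent.H50.ODG

theorem result :
    (∀ K : Geo, OddDeg K ↔ ∃ u v w α β, Prm u v w α β ∧ Cong (ModD u v w α β) K) ∧
    ∀ u v w α β u' v' w' α' β', Prm u v w α β → Prm u' v' w' α' β' →
      (Cong (ModD u v w α β) (ModD u' v' w' α' β') ↔ Same u v w α β u' v' w' α' β') :=
  Pool.Agent.H50.ODG.All.qMND

end Pool.Agent.Results.MP_397744_co.OddDegrees
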