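import Pool.Agent.H39.ODP.All

/-!
# Classification of the two-orbit polyhedra with odd faces in hyperbolic 3-space (MP_397744_co)

Let `p` be odd. Up to isometry, the two-orbit geometric polyhedra in hyperbolic 3-space all of whose faces have `p`
vertices are exactly the Wythoff polyhedra `Mod p i h` of five families with one real parameter `h > 0`; different
parameters give polyhedra which are not congruent. The polyhedra of the family `i` are obtained from three reflections
in planes with normals `m0`, `m1`, `m2` and the base point `o`, with the Minkowski products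
`mk m0 m1 = cos (π / p)`, `mk m0 m2 = cos (k π / p)`, `mk m1 m2 = D`, `mk o m1 = mk o m2 = 0`, `mk o m0 = - h`:
* `i = 0`: `k = 2`, `D = 0`, `p ≥ 5` (vertex degree 4),
* `i = 1`: `k = 2`, `D = cos (π / p)`, `p ≥ 5` (vertex degree `2 p`),
* `i = 2`: `k = 3`, `D = 1 / 2`, `p ≥ 5`, `3` does not divide `p` (vertex degree 6),
* `i = 3`: `k = 4`, `D = cos (π / p)`, `p ≥ 7` (vertex degree `2 p`),
* `i = 4`: `k = 2`, `D = 1 / 2`, `p = 7` (vertex degree 6).
The condition on `h` is `z2 ≥ 0` (with equality for polyhedra which lie in a plane).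
-/

namespace Pool.Agent.Results.MP_397744_co.OddFaces

open Pool.Agent.H57.CP Pool.Agent.H39.OD

theorem result : ∀ p : ℕ, Odd p →
    (∀ K : Geo, OddPoly p K ↔ ∃ i h, Valid p i h ∧ Cong (Mod p i h) K) ∧
    ∀ i h i' h', Valid p i h → Valid p i' h' → Cong (Mod p i h) (Mod p i' h') → i = i' ∧ h = h' :=
  Pool.Agent.H39.ODP.All.main

end Pool.Agent.Results.MP_397744_co.OddFaces
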